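import Pool.Agent.H14R2.RC.Defs

namespace RC14
open scoped InnerProductSpace
open Finset

namespace CNT

open Classical in
/-- the tuples satisfying the constraints `C` -/
noncomputable def A (n : ℕ) (C : Finset (Fin 8 × Fin n × Fin n)) :
    Finset (Fin 8 → Equiv.Perm (Fin n)) :=
  Finset.univ.filter fun x => ∀ c ∈ C, x c.1 c.2.1 = c.2.2

lemma mem_A {n : ℕ} {C : Finset (Fin 8 × Fin n × Fin n)} {x : Fin 8 → Equiv.Perm (Fin n)} :
    x ∈ A n C ↔ ∀ c ∈ C, x c.1 c.2.1 = c.2.2 := by
  classical
  simp [A]

open Classical in
lemma step {n : ℕ} (C : Finset (Fin 8 × Fin n × Fin n)) (c : Fin 8 × Fin n × Fin n)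
    (hc : c ∉ C) : #(A n (insert c C)) * (n - #C) ≤ #(A n C) := by
  obtain ⟨i, p, r⟩ := c
  set D : Finset (Fin n) := (C.filter fun d => d.1 = i).image fun d => d.2.1 with hD
  have hDc : #D ≤ #C := Finset.card_image_le.trans (Finset.card_filter_le _ _)
  have hT : n - #C ≤ #(Finset.univ \ D) := by
    rw [Finset.card_sdiff_of_subset (Finset.subset_univ D), Finset.card_univ, Fintype.card_fin]
    omega
  calc #(A n (insert (i, p, r) C)) * (n - #C)
      ≤ #(A n (insert (i, p, r) C)) * #(Finset.univ \ D) := Nat.mul_le_mul_left _ hT
    _ = #(A n (insert (i, p, r) C) ×ˢ (Finset.univ \ D)) := (Finset.card_product _ _).symm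
    _ ≤ #(A n C) := by
      refine Finset.card_le_card_of_injOn
        (fun q => Function.update q.1 i (q.1 i * Equiv.swap p q.2)) ?_ ?_
      · rintro ⟨x, t⟩ hxt
        simp only [Finset.coe_product, Set.mem_prod, Finset.mem_coe, Finset.mem_sdiff,
          Finset.mem_univ, true_and] at hxt
        obtain ⟨hx, ht⟩ := hxt
        rw [mem_A] at hx
        simp only [Finset.mem_coe]
        rw [mem_A]
        rintro ⟨i', p', r'⟩ hc'
        have h0 := hx (i', p', r') (Finset.mem_insert_of_mem hc')
        have h1 := hx (i, p, r) (Finset.mem_insert_self _ _)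
        simp only at h0 h1 ⊢
        by_cases hi : i' = i
        · subst hi
          simp only [Function.update_self, Equiv.Perm.coe_mul, Function.comp_apply]
          have hp : p' ≠ p := by
            rintro rfl
            apply hc
            rw [h0] at h1
            rw [← h1]
            exact hc'
          have hpt : p' ≠ t := by
            rintro rfl
            apply ht
            rw [hD]
            exact Finset.mem_image.2 ⟨(i', p', r'), Finset.mem_filter.2 ⟨hc', rfl⟩, rfl⟩
          rw [Equiv.swap_apply_of_ne_of_ne hp hpt]
          exact h0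
        · rw [Function.update_of_ne hi]
          exact h0
      · rintro ⟨x, t⟩ hxt ⟨y, s⟩ hys hxy
        simp only [Finset.coe_product, Set.mem_prod, Finset.mem_coe, Finset.mem_sdiff,
          Finset.mem_univ, true_and] at hxt hys
        have hx := mem_A.1 hxt.1 (i, p, r) (Finset.mem_insert_self _ _)
        have hy := mem_A.1 hys.1 (i, p, r) (Finset.mem_insert_self _ _)
        simp only at hx hy hxy
        have h1 := congrFun hxy i
        simp only [Function.update_self] at h1
        have h2 : (x i * Equiv.swap p t) t = r := by simp [hx]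
        have h3 : (y i * Equiv.swap p s) s = r := by simp [hy]
        have hts : t = s := by
          apply (y i * Equiv.swap p s).injective
          rw [h3, ← h1, h2]
        subst hts
        have hxyi : x i = y i := mul_right_cancel h1
        have : x = y := by
          funext j
          by_cases hj : j = i
          · subst hj; exact hxyi
          · have := congrFun hxy j
            rwa [Function.update_of_ne hj, Function.update_of_ne hj] at this
        rw [this]

lemma main (n N : ℕ) (C : Finset (Fin 8 × Fin n × Fin n)) (hC : C.card ≤ N) :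
    #(A n C) * (n - N) ^ C.card ≤ n.factorial ^ 8 := by
  classical
  induction C using Finset.induction_on with
  | empty =>
    simp only [Finset.card_empty, pow_zero, mul_one]
    refine (Finset.card_le_univ _).trans ?_
    simp [Fintype.card_perm]
  | insert c C hc ih =>
    rw [Finset.card_insert_of_notMem hc] at hC ⊢
    have h1 := ih (by omega)
    have h2 := step C c hc
    calc #(A n (insert c C)) * (n - N) ^ (#C + 1)
        = (#(A n (insert c C)) * (n - N)) * (n - N) ^ #C := by ring
      _ ≤ (#(A n (insert c C)) * (n - #C)) * (n - N) ^ #C := by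
          gcongr
          omega
      _ ≤ #(A n C) * (n - N) ^ #C := Nat.mul_le_mul_right _ h2
      _ ≤ n.factorial ^ 8 := h1

end CNT

set_option linter.unusedVariables false in
/-- number of 8-tuples of permutations satisfying `N₀` distinct constraints `x_i(p) = r` -/
theorem CNT (n N : ℕ) (hN : N < n) (C : Finset (Fin 8 × Fin n × Fin n)) (hC : C.card ≤ N) :
    Nat.card {x : Fin 8 → Equiv.Perm (Fin n) // ∀ c ∈ C, x c.1 c.2.1 = c.2.2} *
      (n - N) ^ C.card ≤ n.factorial ^ 8 := by
  classical
  have h : Nat.card {x : Fin 8 → Equiv.Perm (Fin n) // ∀ c ∈ C, x c.1 c.2.1 = c.2.2} =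
      #(CNT.A n C) := by
    rw [Nat.card_eq_fintype_card, Fintype.card_subtype]
    rfl
  rw [h]
  exact CNT.main n N C hC

end RC14
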