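import Pool.Agent.H14R2.RC.Defs

namespace RC14
open scoped InnerProductSpace
open Finset

namespace CONJ

/-- the multiset coded by multiplicities `f` of the small parts and a list `g` of large parts -/
def F {n s : ℕ} (f g : Fin s → Fin (n + 1)) : Multiset ℕ :=
  (∑ i : Fin s, Multiset.replicate (f i : ℕ) ((i : ℕ) + 1)) +
    ((Finset.univ : Finset (Fin s)).val.map (fun i => (g i : ℕ))).filter (0 < ·)

lemma exists_code (n : ℕ) (p : n.Partition) :
    ∃ fg : (Fin (Nat.sqrt n) → Fin (n + 1)) × (Fin (Nat.sqrt n) → Fin (n + 1)),
      p.parts = F fg.1 fg.2 := by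
  set s := Nat.sqrt n with hs
  have hns : n < (s + 1) * (s + 1) := Nat.lt_succ_sqrt n
  have hle : ∀ x ∈ p.parts, x ≤ n := by
    intro x hx
    rw [← p.parts_sum]
    exact Multiset.single_le_sum (fun _ _ => Nat.zero_le _) x hx
  have hcount : ∀ a, p.parts.count a < n + 1 := by
    intro a
    by_cases ha : a ∈ p.parts
    · have h1 : Multiset.card p.parts • 1 ≤ p.parts.sum :=
        Multiset.card_nsmul_le_sum (fun x hx => p.parts_pos hx)
      rw [p.parts_sum] at h1
      have h2 := Multiset.count_le_card a p.parts
      simp only [smul_eq_mul, mul_one] at h1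
      omega
    · rw [Multiset.count_eq_zero_of_notMem ha]; omega
  set M := p.parts.filter (fun x => ¬ x ≤ s) with hM
  have hMcard : Multiset.card M ≤ s := by
    have h1 : Multiset.card M • (s + 1) ≤ M.sum :=
      Multiset.card_nsmul_le_sum (fun x hx => by
        rw [hM, Multiset.mem_filter] at hx
        omega)
    have h2 : M.sum ≤ n := by
      have h3 : (p.parts.filter (fun x => x ≤ s)).sum + M.sum = n := by
        rw [← Multiset.sum_add, hM, Multiset.filter_add_not, p.parts_sum]
      omega
    rw [smul_eq_mul] at h1
    by_contra hcon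
    push Not at hcon
    have : (s + 1) * (s + 1) ≤ Multiset.card M * (s + 1) := Nat.mul_le_mul_right _ hcon
    omega
  set L : List ℕ := M.toList ++ List.replicate (s - Multiset.card M) 0 with hL
  have hLlen : L.length = s := by
    rw [hL, List.length_append, List.length_replicate, Multiset.length_toList]
    omega
  have hLle : ∀ x ∈ L, x ≤ n := by
    intro x hx
    rw [hL, List.mem_append] at hx
    rcases hx with hx | hx
    · rw [Multiset.mem_toList, hM, Multiset.mem_filter] at hx
      exact hle x hx.1
    · rw [List.mem_replicate] at hx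
      omega
  refine ⟨(fun i => ⟨p.parts.count ((i : ℕ) + 1), hcount _⟩,
    fun i => ⟨L[(i : ℕ)]'(by rw [hLlen]; exact i.2),
      Nat.lt_succ_of_le (hLle _ (List.getElem_mem _))⟩), ?_⟩
  unfold F
  have e1 : p.parts.filter (fun x => x ≤ s) =
      ∑ i : Fin s, Multiset.replicate (p.parts.count ((i : ℕ) + 1)) ((i : ℕ) + 1) := by
    ext a
    rw [Multiset.count_sum']
    simp only [Multiset.count_replicate]
    rw [Multiset.count_filter]
    split_ifs with ha
    · rcases Nat.eq_zero_or_pos a with h0 | h0
      · subst h0
        have : p.parts.count 0 = 0 := Multiset.count_eq_zero_of_notMem fun h =>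
          absurd (p.parts_pos h) (lt_irrefl _)
        rw [this]
        symm
        apply Finset.sum_eq_zero
        intro i _
        rw [if_neg (by omega)]
      · rw [Finset.sum_eq_single (⟨a - 1, by omega⟩ : Fin s)]
        · have : a - 1 + 1 = a := by omega
          simp [this]
        · intro b _ hb
          rw [if_neg]
          intro h
          apply hb
          ext
          simp only
          omega
        · intro h; exact absurd (Finset.mem_univ _) h
    · symm
      apply Finset.sum_eq_zero
      intro i _
      rw [if_neg]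
      intro h
      have := i.2
      omega
  have e2 : M = ((Finset.univ : Finset (Fin s)).val.map
      (fun i : Fin s => (((⟨L[(i : ℕ)]'(by rw [hLlen]; exact i.2),
      Nat.lt_succ_of_le (hLle _ (List.getElem_mem _))⟩ : Fin (n + 1)) : ℕ)))).filter (0 < ·) := by
    simp only
    rw [Fin.univ_val_map]
    have e3 : List.ofFn (fun i : Fin s => L[(i : ℕ)]'(by rw [hLlen]; exact i.2)) = L := by
      apply List.ext_getElem
      · simp [hLlen]
      · intro i h1 h2
        simp
    rw [e3, hL, ← Multiset.coe_add, Multiset.coe_toList, Multiset.filter_add]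
    have e4 : Multiset.filter (0 < ·) M = M := by
      rw [Multiset.filter_eq_self]
      intro a ha
      rw [hM, Multiset.mem_filter] at ha
      omega
    have e5 : Multiset.filter (0 < ·) ((List.replicate (s - Multiset.card M) 0 : List ℕ) :
        Multiset ℕ) = 0 := by
      rw [Multiset.filter_eq_nil]
      intro a ha
      rw [Multiset.mem_coe, List.mem_replicate] at ha
      omega
    rw [e4, e5, add_zero]
  calc p.parts = p.parts.filter (fun x => x ≤ s) + M := by
        rw [hM, Multiset.filter_add_not]
    _ = _ := by rw [e1]; exact congrArg _ e2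

lemma card_partition_le (n : ℕ) : Fintype.card n.Partition ≤ (n + 1) ^ (2 * Nat.sqrt n) := by
  classical
  choose φ hφ using exists_code n
  have hinj : Function.Injective φ := by
    intro p q hpq
    apply Nat.Partition.ext
    rw [hφ p, hφ q, hpq]
  have := Fintype.card_le_of_injective φ hinj
  refine this.trans (le_of_eq ?_)
  simp only [Fintype.card_prod, Fintype.card_pi, Fintype.card_fin, Finset.prod_const,
    Finset.card_univ]
  ring

lemma exists_odd (n : ℕ) (hn : 2 ≤ n) : ∃ t : Equiv.Perm (Fin n), Equiv.Perm.sign t = -1 := by
  refine ⟨Equiv.swap ⟨0, by omega⟩ ⟨1, by omega⟩, ?_⟩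
  rw [Equiv.Perm.sign_swap]
  intro h
  simp at h

end CONJ

/-- number of conjugacy classes of the alternating group -/
theorem CONJ (n : ℕ) : Nat.card (ConjClasses (Alt n)) ≤ 2 * (n + 1) ^ (2 * Nat.sqrt n + 2) := by
  classical
  rcases Nat.lt_or_ge n 2 with hn | hn
  · have h1 : Nat.card (ConjClasses (Alt n)) ≤ 1 := by
      have hsub : Subsingleton (Equiv.Perm (Fin n)) := by
        have : Subsingleton (Fin n) := by
          rw [← Finite.card_le_one_iff_subsingleton]
          simp; omega
        infer_instance
      have : Subsingleton (Alt n) := inferInstance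
      have : Subsingleton (ConjClasses (Alt n)) := by
        constructor
        intro a b
        induction a using Quotient.inductionOn
        induction b using Quotient.inductionOn
        congr 1
        exact Subsingleton.elim _ _
      exact Finite.card_le_one_iff_subsingleton.2 this
    refine h1.trans ?_
    have : 1 ≤ (n + 1) ^ (2 * Nat.sqrt n + 2) := Nat.one_le_pow _ _ (by omega)
    omega
  · obtain ⟨t, ht⟩ := CONJ.exists_odd n hn
    -- the conjugate of an even permutation by `t`
    let tc : Alt n → Alt n := fun a =>
      ⟨t * a * t⁻¹, by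
        rw [Equiv.Perm.mem_alternatingGroup, map_mul, map_mul, map_inv, ht,
          Equiv.Perm.mem_alternatingGroup.1 a.2]
        simp⟩
    let rp : (Fintype.card (Fin n)).Partition → Alt n := fun p =>
      if h : ∃ a : Alt n, (a : Equiv.Perm (Fin n)).partition = p then h.choose else 1
    let Φ : (Fintype.card (Fin n)).Partition × Bool → ConjClasses (Alt n) := fun pb =>
      if pb.2 then ConjClasses.mk (tc (rp pb.1)) else ConjClasses.mk (rp pb.1)
    have hΦ : Function.Surjective Φ := by
      intro c
      obtain ⟨a, rfl⟩ := ConjClasses.exists_rep c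
      have hex : ∃ b : Alt n, (b : Equiv.Perm (Fin n)).partition =
          (a : Equiv.Perm (Fin n)).partition := ⟨a, rfl⟩
      have hrp : ((rp (a : Equiv.Perm (Fin n)).partition : Alt n) :
          Equiv.Perm (Fin n)).partition = (a : Equiv.Perm (Fin n)).partition := by
        simp only [rp, dif_pos hex]
        exact hex.choose_spec
      have hconj : IsConj ((rp (a : Equiv.Perm (Fin n)).partition : Alt n) :
          Equiv.Perm (Fin n)) (a : Equiv.Perm (Fin n)) :=
        Equiv.Perm.partition_eq_of_isConj.2 hrp
      obtain ⟨π, hπ⟩ := isConj_iff.1 hconj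
      rcases Int.units_eq_one_or (Equiv.Perm.sign π) with h | h
      · refine ⟨((a : Equiv.Perm (Fin n)).partition, false), ?_⟩
        simp only [Φ]
        rw [if_neg (by simp)]
        rw [ConjClasses.mk_eq_mk_iff_isConj, isConj_iff]
        refine ⟨⟨π, Equiv.Perm.mem_alternatingGroup.2 h⟩, ?_⟩
        ext1
        exact hπ
      · refine ⟨((a : Equiv.Perm (Fin n)).partition, true), ?_⟩
        simp only [Φ]
        rw [if_pos (by simp)]
        rw [ConjClasses.mk_eq_mk_iff_isConj, isConj_iff]
        refine ⟨⟨π * t⁻¹, ?_⟩, ?_⟩
        · rw [Equiv.Perm.mem_alternatingGroup, map_mul, map_inv, ht, h]; simp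
        · ext1
          refine Eq.trans ?_ hπ
          simp only [tc, Subgroup.coe_mul, Subgroup.coe_inv, mul_inv_rev, inv_inv]
          group
    have h1 := Nat.card_le_card_of_surjective Φ hΦ
    have h2 : Nat.card ((Fintype.card (Fin n)).Partition × Bool) =
        2 * Fintype.card (Fintype.card (Fin n)).Partition := by
      rw [Nat.card_prod, Nat.card_eq_fintype_card, Nat.card_eq_fintype_card, Fintype.card_bool]
      ring
    rw [h2] at h1
    refine h1.trans ?_
    have h3 := CONJ.card_partition_le (Fintype.card (Fin n))
    have h4 : Fintype.card (Fin n) = n := Fintype.card_fin n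
    have h5 : (Fintype.card (Fin n) + 1) ^ (2 * Nat.sqrt (Fintype.card (Fin n))) =
        (n + 1) ^ (2 * Nat.sqrt n) := by rw [h4]
    rw [h5] at h3
    have h6 : (n + 1) ^ (2 * Nat.sqrt n) ≤ (n + 1) ^ (2 * Nat.sqrt n + 2) :=
      Nat.pow_le_pow_right (by omega) (by omega)
    omega

end RC14
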